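import Pool.Agent.N557.BP.Stm
import Pool.Agent.TH103.BL.Vtx

set_option autoImplicit false

/-!
BP/V2: the reflection law at a vertex for functions with continuous slices (helper574). The geometry
is that of `Pool.Agent.TH103.BL.refl_aux`.
-/

namespace Pool.Agent.N574.BP

open Complex Set MeasureTheory Filter Topology Pool.Agent.W780.PG Pool.Agent.W780.BB
  Pool.Agent.TH103.BL Pool.Agent.N557.BP

open scoped Real ComplexConjugate

variable {n : ℕ} {p : Fin (n + 3) → ℂ}

/-- the geometry at a vertex, for one direction -/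
theorem geo (hp : IsConvexPolygon p) {f : ℂ × ℝ → ℝ} (hI : IsInvariantFun p f)
    {i a : Fin (n + 3)} (hia : i = a ∨ i = a + 1) {c1 c2 η r θ : ℝ} (hr : 0 < r)
    (hsl : sl p a θ < 0)
    (hQ1 : ∀ᵐ z : ℂ, z ∈ region p → ‖z - p i‖ < r → |f (z, θ) - c1| ≤ η)
    (hQ2 : ∀ᵐ z : ℂ, z ∈ region p → ‖z - p i‖ < r → |f (z, 2 * tau p a - θ) - c2| ≤ η) :
    |c1 - c2| ≤ 2 * η := by
  have hrr := region_eq hp
  -- a point of the side near the vertex
  obtain ⟨y0, hy0, hy0r⟩ : ∃ y0 ∈ side p a, ‖y0 - p i‖ < r / 2 := by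
    have h1 : Tendsto (fun s : ℝ => p a + s • (p (a + 1) - p a)) (𝓝[>] 0) (𝓝 (p a)) := by
      have : Continuous fun s : ℝ => p a + s • (p (a + 1) - p a) := by fun_prop
      have h2 := this.tendsto 0
      rw [zero_smul, add_zero] at h2
      exact h2.mono_left nhdsWithin_le_nhds
    have h2 : Tendsto (fun s : ℝ => p a + (1 - s) • (p (a + 1) - p a)) (𝓝[>] 0)
        (𝓝 (p (a + 1))) := by
      have : Continuous fun s : ℝ => p a + (1 - s) • (p (a + 1) - p a) := by fun_prop
      have h2 := this.tendsto 0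
      rw [sub_zero, one_smul, add_sub_cancel] at h2
      exact h2.mono_left nhdsWithin_le_nhds
    have hmem : ∀ s : ℝ, 0 < s → s < 1 → p a + s • (p (a + 1) - p a) ∈ side p a := by
      intro s h0 h1
      refine ⟨1 - s, s, by linarith, h0, by ring, ?_⟩
      rw [sub_smul, one_smul, smul_sub]
      ring
    have hlt1 : ∀ᶠ s in 𝓝[>] (0 : ℝ), s < 1 := by
      filter_upwards [Ioo_mem_nhdsGT (one_pos (α := ℝ))] with s hs using hs.2
    rcases hia with rfl | rfl
    · have h3 : ∀ᶠ s in 𝓝[>] (0 : ℝ), ‖p i + s • (p (i + 1) - p i) - p i‖ < r / 2 := by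
        have := (h1.sub_const (p i)).norm
        rw [sub_self, norm_zero] at this
        exact this.eventually_lt_const (by linarith)
      obtain ⟨s, ⟨h4, h5⟩, h6⟩ := ((h3.and hlt1).and self_mem_nhdsWithin).exists
      exact ⟨_, hmem s h6 h5, h4⟩
    · have h3 : ∀ᶠ s in 𝓝[>] (0 : ℝ),
          ‖p a + (1 - s) • (p (a + 1) - p a) - p (a + 1)‖ < r / 2 := by
        have := (h2.sub_const (p (a + 1))).norm
        rw [sub_self, norm_zero] at this
        exact this.eventually_lt_const (by linarith)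
      obtain ⟨s, ⟨h4, h5⟩, h6⟩ := ((h3.and hlt1).and self_mem_nhdsWithin).exists
      have h7 : (0 : ℝ) < s := h6
      exact ⟨_, hmem (1 - s) (by linarith) (by linarith), h4⟩
  have hy00 : sf p a y0 = 0 := side_zero hp hy0
  have hsl2 : 0 < sl p a (2 * tau p a - θ) := by rw [sl_refl hp]; linarith
  -- choose `s0`
  obtain ⟨s0, hs0, hs0r, hs01, hs02⟩ : ∃ s0 : ℝ, 0 < s0 ∧ s0 < r / 2 ∧
      y0 - s0 • dir θ ∈ reg p ∧ y0 + s0 • dir (2 * tau p a - θ) ∈ reg p := by
    have h1 : ∀ (φ : ℝ), 0 < sl p a φ → ∀ᶠ s in 𝓝[>] (0 : ℝ), y0 + s • dir φ ∈ reg p := by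
      intro φ hφ
      have : ∀ j, ∀ᶠ s in 𝓝[>] (0 : ℝ), 0 < sf p j (y0 + s • dir φ) := by
        intro j
        by_cases hj : j = a
        · subst hj
          filter_upwards [self_mem_nhdsWithin] with s hs
          rw [sf_ray, hy00, zero_add]
          exact mul_pos hs hφ
        · have hc : Continuous fun s : ℝ => sf p j (y0 + s • dir φ) :=
            (sf_cont p j).comp (by fun_prop)
          have h2 : 0 < sf p j (y0 + (0 : ℝ) • dir φ) := by
            rw [zero_smul, add_zero]; exact side_pos hp hy0 hj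
          exact ((hc.tendsto 0).eventually_const_lt h2).filter_mono nhdsWithin_le_nhds
      exact eventually_all.2 this
    have hneg : ∀ s : ℝ, y0 - s • dir θ = y0 + s • dir (θ + π) := by
      intro s
      have : dir (θ + π) = - dir θ := by
        rw [dir_add]
        have : dir π = -1 := by unfold dir; exact exp_pi_mul_I
        rw [this]; ring
      rw [this, smul_neg, ← sub_eq_add_neg]
    have h2 : 0 < sl p a (θ + π) := by
      rw [sl_eq hp, show θ + π - tau p a = (θ - tau p a) + π by ring, Real.sin_add_pi,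
        mul_neg, ← sl_eq hp]
      linarith
    have h3 : ∀ᶠ s in 𝓝[>] (0 : ℝ), s < r / 2 := by
      filter_upwards [Ioo_mem_nhdsGT (half_pos hr)] with s hs using hs.2
    obtain ⟨s, ⟨⟨h4, h5⟩, h6⟩, h7⟩ :=
      (((h1 _ h2).and (h1 _ hsl2)).and h3).and self_mem_nhdsWithin |>.exists
    exact ⟨s, h7, h6, by rw [hneg]; exact h4, h5⟩
  set T : ℂ → ℝ := fun z => sf p a z / (- sl p a θ) with hT
  set W : ℂ → ℂ := fun z => rf p a z + (2 * s0) • dir (2 * tau p a - θ) with hW
  have hTc : Continuous T := (sf_cont p a).div_const _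
  have hrfc : Continuous (rf p a) := by
    unfold rf
    exact continuous_const.add (continuous_const.mul (continuous_conj.comp (by fun_prop)))
  have hWc : Continuous W := hrfc.add continuous_const
  set z0 : ℂ := y0 - s0 • dir θ with hz0
  have hz0' : z0 = y0 + (-s0) • dir θ := by rw [hz0, neg_smul, sub_eq_add_neg]
  have hTz0 : T z0 = s0 := by
    rw [hT]
    simp only
    rw [hz0', sf_ray, hy00]
    have : sl p a θ ≠ 0 := hsl.ne
    field_simp
    ring
  have hYz : ∀ z, sf p a (z + T z • dir θ) = 0 := by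
    intro z
    rw [sf_ray, hT]
    have : sl p a θ ≠ 0 := hsl.ne
    field_simp
    ring
  have hWY : ∀ z, W z = z + T z • dir θ + (2 * s0 - T z) • dir (2 * tau p a - θ) := by
    intro z
    have h1 := rf_fix hp a _ (hYz z)
    rw [rf_ray hp] at h1
    rw [hW]
    simp only
    rw [← h1, sub_smul]
    ring
  have hY0 : z0 + T z0 • dir θ = y0 := by
    rw [hTz0, hz0]; ring
  have hW0 : W z0 = y0 + s0 • dir (2 * tau p a - θ) := by
    rw [hWY, hY0, hTz0]
    congr 2
    ring
  have hopen := reg_open hp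
  -- all conditions hold near `z0`
  have hev : ∀ᶠ z in 𝓝 z0, z ∈ reg p ∧ ‖z - p i‖ < r ∧ 0 < T z ∧ T z < 2 * s0 ∧
      (∀ j, j ≠ a → 0 < sf p j (z + T z • dir θ)) ∧ W z ∈ reg p ∧ ‖W z - p i‖ < r := by
    have c1 : ∀ᶠ z in 𝓝 z0, z ∈ reg p := hopen.mem_nhds hs01
    have n1 : ‖z0 - p i‖ < r := by
      calc ‖z0 - p i‖ = ‖(y0 - p i) - s0 • dir θ‖ := by rw [hz0]; congr 1; ring
        _ ≤ ‖y0 - p i‖ + ‖s0 • dir θ‖ := norm_sub_le _ _
        _ < r := by
          rw [norm_smul, norm_dir, mul_one, Real.norm_eq_abs, abs_of_pos hs0]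
          linarith
    have n2 : ‖W z0 - p i‖ < r := by
      calc ‖W z0 - p i‖ = ‖(y0 - p i) + s0 • dir (2 * tau p a - θ)‖ := by
            rw [hW0]; congr 1; ring
        _ ≤ ‖y0 - p i‖ + ‖s0 • dir (2 * tau p a - θ)‖ := norm_add_le _ _
        _ < r := by
          rw [norm_smul, norm_dir, mul_one, Real.norm_eq_abs, abs_of_pos hs0]
          linarith
    have c2 : ∀ᶠ z in 𝓝 z0, ‖z - p i‖ < r := by
      have : Continuous fun z : ℂ => ‖z - p i‖ := by fun_prop
      exact (this.tendsto z0).eventually_lt_const n1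
    have c3 : ∀ᶠ z in 𝓝 z0, 0 < T z :=
      (hTc.tendsto z0).eventually_const_lt (by rw [hTz0]; exact hs0)
    have c4 : ∀ᶠ z in 𝓝 z0, T z < 2 * s0 :=
      (hTc.tendsto z0).eventually_lt_const (by rw [hTz0]; linarith)
    have c5 : ∀ᶠ z in 𝓝 z0, ∀ j, j ≠ a → 0 < sf p j (z + T z • dir θ) := by
      rw [eventually_all]
      intro j
      by_cases hj : j = a
      · exact Eventually.of_forall fun _ h => absurd hj h
      · have hc : Continuous fun z : ℂ => sf p j (z + T z • dir θ) :=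
          (sf_cont p j).comp (continuous_id.add (hTc.smul continuous_const))
        have h2 : 0 < sf p j (z0 + T z0 • dir θ) := by
          rw [hY0]; exact side_pos hp hy0 hj
        filter_upwards [(hc.tendsto z0).eventually_const_lt h2] with z hz _ using hz
    have c6 : ∀ᶠ z in 𝓝 z0, W z ∈ reg p :=
      hWc.continuousAt (hopen.mem_nhds (by rw [hW0]; exact hs02))
    have c7 : ∀ᶠ z in 𝓝 z0, ‖W z - p i‖ < r := by
      have : Continuous fun z : ℂ => ‖W z - p i‖ := (hWc.sub continuous_const).norm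
      exact (this.tendsto z0).eventually_lt_const n2
    filter_upwards [c1, c2, c3, c4, c5, c6, c7] with z h1 h2 h3 h4 h5 h6 h7
      using ⟨h1, h2, h3, h4, h5, h6, h7⟩
  have hWmp : MeasurePreserving W :=
    (measurePreserving_add_right volume ((2 * s0) • dir (2 * tau p a - θ))).comp
      (Pool.Agent.W333.BB.mp_rf p a)
  have hQ2' : ∀ᵐ z : ℂ, W z ∈ region p → ‖W z - p i‖ < r →
      |f (W z, 2 * tau p a - θ) - c2| ≤ η := hWmp.quasiMeasurePreserving.ae hQ2
  have hdense := Measure.dense_of_ae (hQ1.and hQ2')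
  obtain ⟨z, ⟨hz1, hz2⟩, h1, h2, h3, h4, h5, h6, h7⟩ := hdense.inter_nhds_nonempty hev
  have hmem : z + T z • dir θ ∈ side p a :=
    Pool.Agent.W82.BB.mem_side hp (hYz z) h5
  have hinv := hI.reflect a (z + T z • dir θ) hmem θ (T z) (2 * s0 - T z) h3 (by linarith)
    (by rw [add_sub_cancel_right, hrr]; exact h1) (by rw [← hWY, hrr]; exact h6)
  rw [add_sub_cancel_right, ← hWY] at hinv
  have e1 := hz1 (by rw [hrr]; exact h1) h2
  have e2 := hz2 (by rw [hrr]; exact h6) h7
  rw [hinv] at e1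
  have e3 : c1 - c2 = (f (W z, 2 * tau p a - θ) - c2) -
      (f (W z, 2 * tau p a - θ) - c1) := by ring
  rw [e3]
  calc |(f (W z, 2 * tau p a - θ) - c2) - (f (W z, 2 * tau p a - θ) - c1)|
      ≤ |f (W z, 2 * tau p a - θ) - c2| + |f (W z, 2 * tau p a - θ) - c1| :=
        abs_sub _ _
    _ ≤ 2 * η := by linarith

/-- the reflection law at a vertex -/
theorem t_v2 : S_V2 := by
  intro n p hp f _ hI hCS i a hia g hg
  have hCS2 : ∀ᵐ θ : ℝ, ∃ G : ℂ → ℝ, Continuous G ∧
      ∀ᵐ z : ℂ, z ∈ region p → f (z, 2 * tau p a - θ) = G z :=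
    (Measure.measurePreserving_sub_left (volume : Measure ℝ)
      (2 * tau p a)).quasiMeasurePreserving.ae hCS
  have hg2 : ∀ᵐ θ : ℝ, ∀ G : ℂ → ℝ, Sl p f (2 * tau p a - θ) G →
      G (p i) = g (2 * tau p a - θ) :=
    (Measure.measurePreserving_sub_left (volume : Measure ℝ)
      (2 * tau p a)).quasiMeasurePreserving.ae hg
  have h3 : ∀ᵐ θ : ℝ, sl p a θ < 0 → g θ = g (2 * tau p a - θ) := by
    filter_upwards [hCS, hCS2, hg, hg2] with θ h1 h2 k1 k2 hsl
    obtain ⟨G, hG, hGz⟩ := h1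
    obtain ⟨G', hG', hGz'⟩ := h2
    have e1 := k1 G ⟨hG, hGz⟩
    have e2 := k2 G' ⟨hG', hGz'⟩
    have hloc : ∀ (K : ℂ → ℝ), Continuous K → ∀ η : ℝ, 0 < η → ∃ r : ℝ, 0 < r ∧
        ∀ z : ℂ, ‖z - p i‖ < r → |K z - K (p i)| ≤ η := by
      intro K hK η hη
      obtain ⟨r, hr, h⟩ := Metric.continuous_iff.1 hK (p i) η hη
      refine ⟨r, hr, fun z hz => ?_⟩
      have := h z (by rw [dist_eq_norm]; exact hz)
      rw [Real.dist_eq] at this
      exact this.le
    have hall : ∀ η : ℝ, 0 < η → |g θ - g (2 * tau p a - θ)| ≤ 2 * η := by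
      intro η hη
      obtain ⟨r1, hr1, q1⟩ := hloc G hG η hη
      obtain ⟨r2, hr2, q2⟩ := hloc G' hG' η hη
      refine geo hp hI hia (lt_min hr1 hr2) hsl ?_ ?_
      · filter_upwards [hGz] with z hz hz1 hz2
        rw [hz hz1, ← e1]
        exact q1 z (lt_of_lt_of_le hz2 (min_le_left _ _))
      · filter_upwards [hGz'] with z hz hz1 hz2
        rw [hz hz1, ← e2]
        exact q2 z (lt_of_lt_of_le hz2 (min_le_right _ _))
    have h6 : |g θ - g (2 * tau p a - θ)| ≤ 0 := by
      apply le_of_forall_pos_le_add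
      intro ε hε
      have := hall (ε / 2) (by linarith)
      linarith
    exact sub_eq_zero.1 (abs_eq_zero.1 (le_antisymm h6 (abs_nonneg _)))
  have h4 : ∀ᵐ θ : ℝ, sl p a (2 * tau p a - θ) < 0 →
      g (2 * tau p a - θ) = g (2 * tau p a - (2 * tau p a - θ)) :=
    (Measure.measurePreserving_sub_left (volume : Measure ℝ)
      (2 * tau p a)).quasiMeasurePreserving.ae h3
  filter_upwards [h3, h4, ae_sl hp a] with θ h5 h6 h7
  rcases lt_or_gt_of_ne h7 with h | h
  · exact (h5 h).symm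
  · have := h6 (by rw [sl_refl hp]; linarith)
    rw [sub_sub_cancel] at this
    exact this

end Pool.Agent.N574.BP
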